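import Mathlib

/-!
# Betti elements of block monoids: strict growth along proper subgroups, and a lower bound

For finite abelian groups, `β(H) < β(G)` whenever `H` embeds in `G` as a proper subgroup and
`|G| > 2`; and `|G| ≤ 2 β(G) + 2`.
-/

namespace Pool.Agent.Results.MP_baecf2_al.SubgroupMono

/-- The block monoid `B(G)`: the zero-sum sequences over `G`, inside the free commutative monoid
`Multiset G` (written additively). -/
def block (G : Type) [AddCommGroup G] : AddSubmonoid (Multiset G) where
  carrier := {s | s.sum = 0}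
  zero_mem' := by simp
  add_mem' := by
    intro a b ha hb
    change (a + b).sum = 0
    rw [Multiset.sum_add, show a.sum = 0 from ha, show b.sum = 0 from hb, add_zero]

/-- Atoms of the block monoid. -/
def IsAtomB {G : Type} [AddCommGroup G] (a : Multiset G) : Prop :=
  a ∈ block G ∧ a ≠ 0 ∧ ∀ x ∈ block G, ∀ y ∈ block G, a = x + y → x = 0 ∨ y = 0

/-- The set `Z(s)` of factorizations of `s`: multisets of atoms with product (sum) `s`. -/
def Fact {G : Type} [AddCommGroup G] (s : Multiset G) : Type :=
  {z : Multiset (Multiset G) // (∀ a ∈ z, IsAtomB a) ∧ z.sum = s}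

/-- The graph `∇_s`: two different factorizations are adjacent when some atom occurs in both. -/
def nabla {G : Type} [AddCommGroup G] (s : Multiset G) : SimpleGraph (Fact s) where
  Adj z w := z ≠ w ∧ ∃ a, a ∈ z.1 ∧ a ∈ w.1
  symm := ⟨by
    rintro z w ⟨h, a, h1, h2⟩
    exact ⟨h.symm, a, h2, h1⟩⟩
  loopless := ⟨by
    rintro z ⟨h, _⟩
    exact h rfl⟩

/-- `s` is a Betti element of `B(G)`: `s ∈ B(G)` and `∇_s` has two vertices in different connected
components. -/
def IsBetti {G : Type} [AddCommGroup G] (s : Multiset G) : Prop :=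
  s ∈ block G ∧ ∃ z w : Fact s, ¬ (nabla s).Reachable z w

/-- `β(G)`: the number of Betti elements of `B(G)`. -/
noncomputable def beta (G : Type) [AddCommGroup G] : ℕ := {s : Multiset G | IsBetti s}.ncard

section basics

variable {G : Type} [AddCommGroup G]

lemma mem_block {s : Multiset G} : s ∈ block G ↔ s.sum = 0 := Iff.rfl

lemma block_sub {a t : Multiset G} (ha : a ∈ block G) (h : a + t ∈ block G) : t ∈ block G := by
  rw [mem_block] at *
  rw [Multiset.sum_add, ha, zero_add] at h
  exact h

lemma exists_fact (n : ℕ) : ∀ s : Multiset G, Multiset.card s ≤ n → s ∈ block G →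
    ∃ z : Multiset (Multiset G), (∀ a ∈ z, IsAtomB a) ∧ z.sum = s := by
  induction n with
  | zero =>
    intro s hs _
    have : s = 0 := by
      rw [← Multiset.card_eq_zero]; omega
    exact ⟨0, by simp, by simp [this]⟩
  | succ n ih =>
    intro s hs hb
    by_cases h0 : s = 0
    · exact ⟨0, by simp, by simp [h0]⟩
    by_cases ha : IsAtomB s
    · exact ⟨{s}, by simpa using ha, by simp⟩
    · have : ∃ x ∈ block G, ∃ y ∈ block G, s = x + y ∧ x ≠ 0 ∧ y ≠ 0 := by
        by_contra hcon
        apply ha
        refine ⟨hb, h0, ?_⟩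
        intro x hx y hy hxy
        by_contra hne
        push Not at hne
        exact hcon ⟨x, hx, y, hy, hxy, hne.1, hne.2⟩
      obtain ⟨x, hx, y, hy, rfl, hx0, hy0⟩ := this
      have cx := Multiset.card_pos.mpr hx0
      have cy := Multiset.card_pos.mpr hy0
      rw [Multiset.card_add] at hs
      obtain ⟨z1, h1, h1'⟩ := ih x (by omega) hx
      obtain ⟨z2, h2, h2'⟩ := ih y (by omega) hy
      refine ⟨z1 + z2, ?_, by simp [h1', h2']⟩
      intro a ha
      rcases Multiset.mem_add.mp ha with h | h
      · exact h1 a h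
      · exact h2 a h

lemma fact_with {s a : Multiset G} (hs : s ∈ block G) (ha : IsAtomB a) (h : a ≤ s) :
    ∃ z : Fact s, a ∈ z.1 := by
  obtain ⟨t, rfl⟩ := Multiset.le_iff_exists_add.mp h
  obtain ⟨z, hz, hz'⟩ := exists_fact _ t le_rfl (block_sub ha.1 hs)
  refine ⟨⟨a ::ₘ z, ?_, by simp [hz']⟩, by simp⟩
  intro b hb
  rcases Multiset.mem_cons.mp hb with rfl | h
  · exact ha
  · exact hz b h

lemma fact_with2 {s a b : Multiset G} (hs : s ∈ block G) (ha : IsAtomB a) (hb : IsAtomB b)
    (h : a + b ≤ s) : ∃ z : Fact s, a ∈ z.1 ∧ b ∈ z.1 := by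
  obtain ⟨t, rfl⟩ := Multiset.le_iff_exists_add.mp h
  obtain ⟨z, hz, hz'⟩ := exists_fact _ t le_rfl
    (block_sub ((block G).add_mem ha.1 hb.1) hs)
  refine ⟨⟨a ::ₘ b ::ₘ z, ?_, by simp [hz', add_assoc]⟩, by simp, by simp⟩
  intro c hc
  rcases Multiset.mem_cons.mp hc with rfl | h
  · exact ha
  rcases Multiset.mem_cons.mp h with rfl | h
  · exact hb
  · exact hz c h

lemma mem_le {s a : Multiset G} (z : Fact s) (h : a ∈ z.1) : a ≤ s := by
  obtain ⟨t, ht⟩ := Multiset.exists_cons_of_mem h
  have := z.2.2
  rw [ht, Multiset.sum_cons] at this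
  rw [← this]
  exact Multiset.le_add_right _ _

lemma two_mem {s a b : Multiset G} (z : Fact s) (ha : a ∈ z.1) (hb : b ∈ z.1) (hne : a ≠ b) :
    a + b ≤ s := by
  obtain ⟨t, ht⟩ := Multiset.exists_cons_of_mem ha
  have hb' : b ∈ t := by
    rw [ht] at hb
    rcases Multiset.mem_cons.mp hb with h | h
    · exact absurd h.symm hne
    · exact h
  obtain ⟨u, hu⟩ := Multiset.exists_cons_of_mem hb'
  have := z.2.2
  rw [ht, hu, Multiset.sum_cons, Multiset.sum_cons, ← add_assoc] at this
  rw [← this]
  exact Multiset.le_add_right _ _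

/-- The criterion: `s` is a Betti element iff the atoms dividing `s` can be split. -/
def Split (s : Multiset G) (K : Set (Multiset G)) : Prop :=
  (∃ a ∈ K, IsAtomB a ∧ a ≤ s) ∧ (∃ b, b ∉ K ∧ IsAtomB b ∧ b ≤ s) ∧
    ∀ a b, IsAtomB a → IsAtomB b → a ∈ K → b ∉ K → ¬ (a + b ≤ s)

lemma betti_of_split {s : Multiset G} {K : Set (Multiset G)} (hs : s ∈ block G)
    (h : Split s K) : IsBetti s := by
  obtain ⟨⟨a, haK, ha, has⟩, ⟨b, hbK, hb, hbs⟩, hK⟩ := h
  obtain ⟨z, hz⟩ := fact_with hs ha has
  obtain ⟨w, hw⟩ := fact_with hs hb hbs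
  refine ⟨hs, z, w, ?_⟩
  have key : ∀ (z w : Fact s), (nabla s).Reachable z w → (∃ a ∈ z.1, a ∈ K) →
      (∃ a ∈ w.1, a ∈ K) := by
    intro z w hr
    obtain ⟨p⟩ := hr
    induction p with
    | nil => exact id
    | @cons u v w hadj p ih =>
      rintro ⟨a, ha, haK⟩
      apply ih
      obtain ⟨_, c, hc1, hc2⟩ := hadj
      refine ⟨c, hc2, ?_⟩
      by_contra hcK
      have hne : a ≠ c := by
        rintro rfl; exact hcK haK
      exact hK a c (u.2.1 a ha) (u.2.1 c hc1) haK hcK (two_mem u ha hc1 hne)
  intro hr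
  obtain ⟨c, hc, hcK⟩ := key z w hr ⟨a, hz, haK⟩
  have hne : c ≠ b := by
    rintro rfl; exact hbK hcK
  exact hK c b (w.2.1 c hc) hb hcK hbK (two_mem w hc hw hne)

lemma split_of_betti {s : Multiset G} (h : IsBetti s) : ∃ K, Split s K := by
  obtain ⟨hs, z, w, hzw⟩ := h
  have hne : z ≠ w := by
    rintro rfl; exact hzw (SimpleGraph.Reachable.refl _)
  have hs0 : s ≠ 0 := by
    rintro rfl
    apply hne
    have h0 : ∀ u : Fact (0 : Multiset G), u.1 = 0 := by
      intro u
      by_contra hu
      obtain ⟨a, ha⟩ := Multiset.exists_mem_of_ne_zero hu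
      exact (u.2.1 a ha).2.1 (by simpa using mem_le u ha)
    exact Subtype.ext ((h0 z).trans (h0 w).symm)
  have hne0 : ∀ u : Fact s, ∃ a, a ∈ u.1 := by
    intro u
    apply Multiset.exists_mem_of_ne_zero
    intro hu
    apply hs0
    rw [← u.2.2, hu, Multiset.sum_zero]
  have hshare : ∀ (u v : Fact s) (a : Multiset G), a ∈ u.1 → a ∈ v.1 →
      (nabla s).Reachable u v := by
    intro u v a hu hv
    by_cases huv : u = v
    · rw [huv]
    · exact SimpleGraph.Adj.reachable ⟨huv, a, hu, hv⟩
  refine ⟨{a | ∃ u : Fact s, (nabla s).Reachable z u ∧ a ∈ u.1}, ?_, ?_, ?_⟩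
  · obtain ⟨a, ha⟩ := hne0 z
    exact ⟨a, ⟨z, SimpleGraph.Reachable.refl _, ha⟩, z.2.1 a ha, mem_le z ha⟩
  · obtain ⟨b, hb⟩ := hne0 w
    refine ⟨b, ?_, w.2.1 b hb, mem_le w hb⟩
    rintro ⟨u, hu, hbu⟩
    exact hzw (hu.trans (hshare u w b hbu hb))
  · rintro a b ha hb ⟨u, hu, hau⟩ hbK hab
    obtain ⟨v, hva, hvb⟩ := fact_with2 hs ha hb hab
    exact hbK ⟨v, hu.trans (hshare u v a hau hva), hvb⟩

end basics

section finite

variable {G : Type} [AddCommGroup G]

open Classical in
lemma atom_replicate [Finite G] (g : G) : IsAtomB (Multiset.replicate (addOrderOf g) g) := by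
  have hpos := addOrderOf_pos g
  refine ⟨?_, ?_, ?_⟩
  · rw [mem_block, Multiset.sum_replicate, addOrderOf_nsmul_eq_zero]
  · intro h
    have := congrArg Multiset.card h
    rw [Multiset.card_replicate, Multiset.card_zero] at this
    omega
  · intro x hx y hy hxy
    have hle : x ≤ Multiset.replicate (addOrderOf g) g := by
      rw [hxy]; exact Multiset.le_add_right _ _
    obtain ⟨k, hk, hk'⟩ := Multiset.le_replicate_iff.mp hle
    rw [mem_block, hk', Multiset.sum_replicate] at hx
    have hdvd := addOrderOf_dvd_of_nsmul_eq_zero hx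
    rcases Nat.eq_zero_or_pos k with h0 | h0
    · left; rw [hk', h0]; simp
    · right
      have hkn : k = addOrderOf g := le_antisymm hk (Nat.le_of_dvd h0 hdvd)
      have := congrArg Multiset.card hxy
      rw [hk', hkn] at this
      simp at this
      exact this

open Classical in
lemma atom_count_le [Finite G] {b : Multiset G} (hb : IsAtomB b) (g : G) :
    b.count g ≤ addOrderOf g := by
  by_contra hcon
  push Not at hcon
  have h1 : Multiset.replicate (addOrderOf g) g ≤ b :=
    Multiset.le_count_iff_replicate_le.mp hcon.le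
  obtain ⟨t, ht⟩ := Multiset.le_iff_exists_add.mp h1
  have hA := atom_replicate g
  have ht' : t ∈ block G := block_sub hA.1 (ht ▸ hb.1)
  rcases hb.2.2 _ hA.1 _ ht' ht with h | h
  · exact hA.2.1 h
  · rw [ht, h] at hcon
    simp at hcon

open Classical in
lemma betti_count_lt [Finite G] {s : Multiset G} (hs : IsBetti s) (g : G) :
    s.count g < 2 * addOrderOf g := by
  by_contra hcon
  push Not at hcon
  obtain ⟨K, ⟨a, haK, ha, has⟩, ⟨b, hbK, hb, hbs⟩, hK⟩ := split_of_betti hs
  have key : ∀ c : Multiset G, IsAtomB c → c ≤ s →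
      Multiset.replicate (addOrderOf g) g + c ≤ s := by
    intro c hc hcs
    rw [Multiset.le_iff_count]
    intro h
    rw [Multiset.count_add, Multiset.count_replicate]
    have h1 := (Multiset.le_iff_count.mp hcs) h
    by_cases hg : g = h
    · subst hg
      have h2 := atom_count_le hc g
      simp
      omega
    · simp [hg]
      exact h1
  have hA := atom_replicate g
  by_cases hAK : Multiset.replicate (addOrderOf g) g ∈ K
  · exact hK _ b hA hb hAK hbK (key b hb hbs)
  · exact hK a _ ha hA haK hAK (by rw [add_comm]; exact key a ha has)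

open Classical in
lemma betti_not_replicate [Finite G] {s : Multiset G} (hs : IsBetti s) (g : G) :
    ¬ (Multiset.replicate (2 * addOrderOf g) g ≤ s) := by
  intro h
  have h1 := Multiset.le_count_iff_replicate_le.mpr h
  exact absurd h1 (by have := betti_count_lt hs g; omega)

open Classical in
lemma betti_finite (G : Type) [AddCommGroup G] [Finite G] :
    {s : Multiset G | IsBetti s}.Finite := by
  have := Fintype.ofFinite G
  apply Set.Finite.subset (Set.finite_Iic ((2 * Nat.card G) • (Finset.univ : Finset G).val))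
  intro s hs
  rw [Set.mem_Iic, Multiset.le_iff_count]
  intro g
  have h1 := betti_count_lt hs g
  have h2 : addOrderOf g ≤ Nat.card G := addOrderOf_le_card
  have h3 : Multiset.count g (Finset.univ : Finset G).val = 1 :=
    Multiset.count_eq_one_of_mem (Finset.univ : Finset G).nodup (Finset.mem_univ g)
  rw [Multiset.count_nsmul, h3]
  omega

end finite

section map

variable {G H : Type} [AddCommGroup G] [AddCommGroup H]

lemma block_map {f : H →+ G} (hf : Function.Injective f) {s : Multiset H} :
    s.map f ∈ block G ↔ s ∈ block H := by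
  rw [mem_block, mem_block, ← map_multiset_sum]
  constructor
  · intro h; exact hf (by rw [h, map_zero])
  · intro h; rw [h, map_zero]

lemma le_map {f : H →+ G} (hf : Function.Injective f) {s : Multiset H} {t : Multiset G}
    (h : t ≤ s.map f) : ∃ t' : Multiset H, t = t'.map f ∧ t' ≤ s := by
  have hr : ∀ x ∈ t, x ∈ Set.range f := by
    intro x hx
    obtain ⟨y, _, hy⟩ := Multiset.mem_map.mp (Multiset.mem_of_le h hx)
    exact ⟨y, hy⟩
  have ht : t = (t.map (Function.invFun f)).map f := by
    rw [Multiset.map_map]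
    conv_lhs => rw [← Multiset.map_id t]
    apply Multiset.map_congr rfl
    intro x hx
    obtain ⟨y, rfl⟩ := hr x hx
    simp [Function.leftInverse_invFun hf y]
  refine ⟨t.map (Function.invFun f), ht, ?_⟩
  rw [ht] at h
  exact (Multiset.map_le_map_iff hf).mp h

lemma atom_map {f : H →+ G} (hf : Function.Injective f) {a : Multiset H} :
    IsAtomB (a.map f) ↔ IsAtomB a := by
  constructor
  · rintro ⟨h1, h2, h3⟩
    refine ⟨(block_map hf).mp h1, ?_, ?_⟩
    · rintro rfl; exact h2 (by simp)
    · intro x hx y hy hxy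
      rcases h3 (x.map f) ((block_map hf).mpr hx) (y.map f) ((block_map hf).mpr hy)
        (by rw [hxy, Multiset.map_add]) with h | h
      · left; simpa using h
      · right; simpa using h
  · rintro ⟨h1, h2, h3⟩
    refine ⟨(block_map hf).mpr h1, ?_, ?_⟩
    · intro h; exact h2 (by simpa using h)
    · intro x hx y hy hxy
      obtain ⟨x', rfl, _⟩ := le_map hf (hxy ▸ Multiset.le_add_right x y)
      obtain ⟨y', rfl, _⟩ := le_map hf (hxy ▸ Multiset.le_add_left y _)
      rw [← Multiset.map_add] at hxy
      have := Multiset.map_injective hf hxy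
      rcases h3 x' ((block_map hf).mp hx) y' ((block_map hf).mp hy) this with h | h
      · left; simp [h]
      · right; simp [h]

lemma betti_map {f : H →+ G} (hf : Function.Injective f) {s : Multiset H} (hs : IsBetti s) :
    IsBetti (s.map f) := by
  obtain ⟨K, ⟨a, haK, ha, has⟩, ⟨b, hbK, hb, hbs⟩, hK⟩ := split_of_betti hs
  apply betti_of_split (K := Multiset.map f '' K) ((block_map hf).mpr hs.1)
  refine ⟨⟨a.map f, ⟨a, haK, rfl⟩, (atom_map hf).mpr ha, Multiset.map_le_map has⟩,
    ⟨b.map f, ?_, (atom_map hf).mpr hb, Multiset.map_le_map hbs⟩, ?_⟩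
  · rintro ⟨c, hc, hcb⟩
    exact hbK (Multiset.map_injective hf hcb ▸ hc)
  · rintro a' b' ha' hb' ⟨c, hcK, rfl⟩ hb'K hle
    obtain ⟨d, rfl, _⟩ := le_map hf ((Multiset.le_add_left _ _).trans hle)
    rw [← Multiset.map_add] at hle
    refine hK c d ((atom_map hf).mp ha') ((atom_map hf).mp hb') hcK ?_
      ((Multiset.map_le_map_iff hf).mp hle)
    intro hd
    exact hb'K ⟨d, hd, rfl⟩

end map

section witnesses

variable {G : Type} [AddCommGroup G]

lemma atom_of_card {C : Multiset G} (h : C ∈ block G) (h0 : C ≠ 0) (hz : (0 : G) ∉ C)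
    (hc : Multiset.card C ≤ 3) : IsAtomB C := by
  refine ⟨h, h0, ?_⟩
  have key : ∀ x ∈ block G, x ≤ C → Multiset.card x ≠ 1 := by
    intro x hx hle h1
    obtain ⟨u, rfl⟩ := Multiset.card_eq_one.mp h1
    rw [mem_block, Multiset.sum_singleton] at hx
    subst hx
    exact hz (Multiset.mem_of_le hle (by simp))
  intro x hx y hy hxy
  by_contra hcon
  push Not at hcon
  have cx := Multiset.card_pos.mpr hcon.1
  have cy := Multiset.card_pos.mpr hcon.2
  have h1 := key x hx (by rw [hxy]; exact Multiset.le_add_right _ _)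
  have h2 := key y hy (by rw [hxy]; exact Multiset.le_add_left _ _)
  have h3 := congrArg Multiset.card hxy
  rw [Multiset.card_add] at h3
  omega

/-- The sequence `g^n (-g)^n`, `n = ord g`. -/
noncomputable def sg (g : G) : Multiset G :=
  Multiset.replicate (addOrderOf g) g + Multiset.replicate (addOrderOf g) (-g)

/-- The sequence `g² h² (g+h)²`. -/
def kl (g h : G) : Multiset G := ({g, h, g + h} : Multiset G) + {g, h, g + h}

lemma mem_sg {g x : G} (h : x ∈ sg g) : x = g ∨ x = -g := by
  rw [sg, Multiset.mem_add] at h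
  rcases h with h | h
  · left; exact Multiset.eq_of_mem_replicate h
  · right; exact Multiset.eq_of_mem_replicate h

lemma self_mem_sg [Finite G] (g : G) : g ∈ sg g := by
  rw [sg, Multiset.mem_add]
  left
  rw [Multiset.mem_replicate]
  exact ⟨(addOrderOf_pos g).ne', rfl⟩

lemma mem_kl {g h x : G} (hx : x ∈ kl g h) : x = g ∨ x = h ∨ x = g + h := by
  rw [kl, Multiset.mem_add] at hx
  simpa using hx

lemma self_mem_kl (g h : G) : g ∈ kl g h := by
  simp [kl]

open Classical in
lemma betti_sg [Finite G] {g : G} (h : g ≠ -g) : IsBetti (sg g) := by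
  have hg0 : g ≠ 0 := by rintro rfl; simp at h
  have hpos := addOrderOf_pos g
  have hC : IsAtomB ({g, -g} : Multiset G) := by
    apply atom_of_card
    · rw [mem_block]; simp
    · simp
    · simp [hg0, hg0.symm]
    · simp
  have hA := atom_replicate g
  have hblock : sg g ∈ block G := by rw [mem_block]; simp [sg]
  have hCs : ({g, -g} : Multiset G) = Multiset.replicate 1 g + Multiset.replicate 1 (-g) := rfl
  apply betti_of_split (K := {({g, -g} : Multiset G)}) hblock
  refine ⟨⟨_, rfl, hC, ?_⟩, ⟨_, ?_, hA, ?_⟩, ?_⟩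
  · rw [hCs, sg]
    exact add_le_add ((Multiset.replicate_le_replicate g).mpr hpos)
      ((Multiset.replicate_le_replicate (-g)).mpr hpos)
  · intro hmem
    have h1 : (-g) ∈ Multiset.replicate (addOrderOf g) g := by
      rw [Set.mem_singleton_iff.mp hmem]; simp
    exact h (Multiset.eq_of_mem_replicate h1).symm
  · rw [sg]; exact Multiset.le_add_right _ _
  · rintro a b ha hb haK hbK hle
    rw [Set.mem_singleton_iff] at haK
    subst haK
    have hle' := Multiset.le_iff_count.mp hle
    have c1 : b.count g < addOrderOf g := by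
      have := hle' g
      rw [hCs, sg] at this
      simp only [Multiset.count_add, Multiset.count_replicate, if_true, if_neg h.symm] at this
      omega
    have c2 : b.count (-g) < addOrderOf g := by
      have := hle' (-g)
      rw [hCs, sg] at this
      simp only [Multiset.count_add, Multiset.count_replicate, if_true, if_neg h] at this
      omega
    have c3 : ∀ x, x ≠ g → x ≠ -g → b.count x = 0 := by
      intro x h1 h2
      have := hle' x
      rw [hCs, sg] at this
      simp only [Multiset.count_add, Multiset.count_replicate, if_neg h1.symm,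
        if_neg h2.symm] at this
      omega
    have hbeq : b = Multiset.replicate (b.count g) g + Multiset.replicate (b.count (-g)) (-g) := by
      ext x
      rw [Multiset.count_add, Multiset.count_replicate, Multiset.count_replicate]
      by_cases h1 : x = g
      · subst h1; simp [h.symm]
      · by_cases h2 : x = -g
        · subst h2; simp [h]
        · rw [c3 x h1 h2, if_neg (Ne.symm h1), if_neg (Ne.symm h2)]
    by_cases i0 : b.count g = 0
    · rw [i0] at hbeq
      simp only [Multiset.replicate_zero, zero_add] at hbeq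
      have hs := hb.1
      rw [mem_block, hbeq, Multiset.sum_replicate] at hs
      have hd := addOrderOf_dvd_of_nsmul_eq_zero hs
      rw [addOrderOf_neg] at hd
      have j0 := Nat.eq_zero_of_dvd_of_lt hd c2
      rw [j0] at hbeq
      exact hb.2.1 (by simpa using hbeq)
    by_cases j0 : b.count (-g) = 0
    · rw [j0] at hbeq
      simp only [Multiset.replicate_zero, add_zero] at hbeq
      have hs := hb.1
      rw [mem_block, hbeq, Multiset.sum_replicate] at hs
      have hd := addOrderOf_dvd_of_nsmul_eq_zero hs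
      exact i0 (Nat.eq_zero_of_dvd_of_lt hd c1)
    have hCb : ({g, -g} : Multiset G) ≤ b := by
      rw [hCs, hbeq]
      exact add_le_add ((Multiset.replicate_le_replicate g).mpr (Nat.pos_of_ne_zero i0))
        ((Multiset.replicate_le_replicate (-g)).mpr (Nat.pos_of_ne_zero j0))
    obtain ⟨t, ht⟩ := Multiset.le_iff_exists_add.mp hCb
    have htb : t ∈ block G := block_sub hC.1 (ht ▸ hb.1)
    rcases hb.2.2 _ hC.1 _ htb ht with h1 | h1
    · exact hC.2.1 h1
    · apply hbK
      rw [Set.mem_singleton_iff, ht, h1, add_zero]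

lemma betti_kl [Finite G] {g h : G} (hg : g ≠ 0) (hh : h ≠ 0) (hgh : g ≠ h)
    (h2g : g + g = 0) (h2h : h + h = 0) : IsBetti (kl g h) := by
  have hk : g + h ≠ 0 := by
    intro h0
    apply hgh
    have : g + h = h + h := by rw [h0, h2h]
    exact add_right_cancel this
  have hsum : ({g, h, g + h} : Multiset G) ∈ block G := by
    rw [mem_block]
    have : g + (h + (g + h)) = (g + g) + (h + h) := by abel
    simp [this, h2g, h2h]
  have hC : IsAtomB ({g, h, g + h} : Multiset G) := by
    apply atom_of_card hsum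
    · simp
    · simp [hg.symm, hh.symm, hk.symm]
    · simp
  have ho : addOrderOf g = 2 := by
    have : _root_.Fact (Nat.Prime 2) := ⟨Nat.prime_two⟩
    exact addOrderOf_eq_prime (by rw [two_nsmul, h2g]) hg
  have hA := atom_replicate g
  rw [ho] at hA
  apply betti_of_split (K := {({g, h, g + h} : Multiset G)}) ((block G).add_mem hsum hsum)
  refine ⟨⟨_, rfl, hC, Multiset.le_add_right _ _⟩, ⟨_, ?_, hA, ?_⟩, ?_⟩
  · intro hmem
    have := congrArg Multiset.card (Set.mem_singleton_iff.mp hmem)
    simp at this
  · have h1 : ({g} : Multiset G) ≤ {g, h, g + h} := Multiset.singleton_le.mpr (by simp)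
    have h2 : Multiset.replicate 2 g = ({g} : Multiset G) + {g} := rfl
    rw [h2]
    exact add_le_add h1 h1
  · rintro a b ha hb haK hbK hle
    rw [Set.mem_singleton_iff] at haK
    subst haK
    have hle2 : b ≤ ({g, h, g + h} : Multiset G) := le_of_add_le_add_left hle
    obtain ⟨t, ht⟩ := Multiset.le_iff_exists_add.mp hle2
    have htb : t ∈ block G := block_sub hb.1 (ht ▸ hC.1)
    rcases hC.2.2 _ hb.1 _ htb ht with h1 | h1
    · exact hb.2.1 h1
    · apply hbK
      rw [Set.mem_singleton_iff, ht, h1, add_zero]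

end witnesses

lemma beta_lt {G H : Type} [AddCommGroup G] [Finite G] [AddCommGroup H] (f : H →+ G)
    (hf : Function.Injective f) (hs : ¬ Function.Surjective f) (hc : 2 < Nat.card G) :
    beta H < beta G := by
  obtain ⟨s, hsB, g, hgs, hg⟩ : ∃ s : Multiset G, IsBetti s ∧ ∃ g ∈ s, g ∉ Set.range f := by
    by_cases h1 : ∃ g, g ∉ Set.range f ∧ g ≠ -g
    · obtain ⟨g, hg, hg'⟩ := h1
      exact ⟨sg g, betti_sg hg', g, self_mem_sg g, hg⟩
    · push Not at h1
      obtain ⟨g, hg⟩ : ∃ g, g ∉ Set.range f := by
        by_contra hcon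
        push Not at hcon
        exact hs hcon
      have hg0 : g ≠ 0 := by
        rintro rfl; exact hg ⟨0, map_zero f⟩
      have two : ∀ x : G, x = -x → x + x = 0 := by
        intro x hx
        nth_rewrite 2 [hx]
        exact add_neg_cancel x
      obtain ⟨h, hh0, hhg⟩ : ∃ h : G, h ≠ 0 ∧ h ≠ g := by
        by_contra hcon
        push Not at hcon
        have hsub : (Set.univ : Set G) ⊆ {0, g} := by
          intro x _
          by_cases hx : x = 0
          · left; exact hx
          · right; exact hcon x hx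
        have h2 := Set.ncard_le_ncard hsub
        rw [Set.ncard_univ, Set.ncard_pair hg0.symm] at h2
        omega
      have h2g := two g (h1 g hg)
      have h2h : h + h = 0 := by
        by_cases hr : h ∈ Set.range f
        · have hgh : g + h ∉ Set.range f := by
            rintro ⟨x, hx⟩
            obtain ⟨y, hy⟩ := hr
            apply hg
            refine ⟨x - y, ?_⟩
            rw [map_sub, hx, hy]
            abel
          have h3 := two _ (h1 _ hgh)
          have : h + h = (g + h + (g + h)) - (g + g) := by abel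
          rw [this, h3, h2g, sub_zero]
        · exact two h (h1 h hr)
      exact ⟨kl g h, betti_kl hg0 hh0 hhg.symm h2g h2h, g, self_mem_kl g h, hg⟩
  unfold beta
  rw [← Set.ncard_image_of_injective {s : Multiset H | IsBetti s} (Multiset.map_injective hf)]
  apply Set.ncard_lt_ncard _ (betti_finite G)
  refine ⟨?_, ?_⟩
  · rintro _ ⟨t, ht, rfl⟩
    exact betti_map hf ht
  · intro hsub
    obtain ⟨t, _, ht⟩ := hsub hsB
    rw [← ht] at hgs
    obtain ⟨y, _, hy⟩ := Multiset.mem_map.mp hgs
    exact hg ⟨y, hy⟩

open Classical in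
lemma card_le (G : Type) [AddCommGroup G] [Finite G] : Nat.card G ≤ 2 * beta G + 2 := by
  have := Fintype.ofFinite G
  obtain ⟨h0, hh0⟩ : ∃ h0 : G, ∀ g : G, g ≠ 0 → g ≠ h0 → g = -g →
      (h0 ≠ 0 ∧ h0 + h0 = 0) := by
    by_cases hU : ∃ h0 : G, h0 ≠ 0 ∧ h0 + h0 = 0
    · obtain ⟨h0, h⟩ := hU
      exact ⟨h0, fun _ _ _ _ => h⟩
    · refine ⟨0, fun g hg _ hgg => ?_⟩
      exfalso
      apply hU
      refine ⟨g, hg, ?_⟩
      nth_rewrite 2 [hgg]
      exact add_neg_cancel g
  have two : ∀ x : G, x = -x → x + x = 0 := by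
    intro x hx
    nth_rewrite 2 [hx]
    exact add_neg_cancel x
  let φ : G → Multiset G := fun g => if g = -g then kl g h0 else sg g
  let S : Finset G := Finset.univ \ {0, h0}
  have hφ : ∀ g ∈ S, IsBetti (φ g) := by
    intro g hg
    simp only [S, Finset.mem_sdiff, Finset.mem_univ, true_and, Finset.mem_insert,
      Finset.mem_singleton, not_or] at hg
    by_cases hgg : g = -g
    · have hh := hh0 g hg.1 hg.2 hgg
      simp only [φ, if_pos hgg]
      exact betti_kl hg.1 hh.1 hg.2 (two g hgg) hh.2
    · simp only [φ, if_neg hgg]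
      exact betti_sg hgg
  have h1 : S.card ≤ 2 * (S.image φ).card := by
    apply Finset.card_le_mul_card_image
    intro a ha
    obtain ⟨g, hg, rfl⟩ := Finset.mem_image.mp ha
    simp only [S, Finset.mem_sdiff, Finset.mem_univ, true_and, Finset.mem_insert,
      Finset.mem_singleton, not_or] at hg
    by_cases hgg : g = -g
    · have hh := hh0 g hg.1 hg.2 hgg
      have hsub : (S.filter fun x => φ x = φ g) ⊆ {g, g + h0} := by
        intro x hx
        simp only [S, Finset.mem_filter, Finset.mem_sdiff, Finset.mem_univ, true_and,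
          Finset.mem_insert, Finset.mem_singleton, not_or] at hx
        obtain ⟨⟨hx0, hxh⟩, hxg⟩ := hx
        simp only [φ, if_pos hgg] at hxg
        by_cases hxx : x = -x
        · rw [if_pos hxx] at hxg
          have hm := self_mem_kl x h0
          rw [hxg] at hm
          rcases mem_kl hm with h | h | h
          · simp [h]
          · exact absurd h hxh
          · simp [h]
        · rw [if_neg hxx] at hxg
          have hm := self_mem_sg x
          rw [hxg] at hm
          exfalso
          apply hxx
          have h0n : h0 = -h0 := eq_neg_of_add_eq_zero_left hh.2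
          rcases mem_kl hm with h | h | h
          · rw [h]; exact hgg
          · rw [h]; exact h0n
          · rw [h, neg_add]; rw [← hgg, ← h0n]
      exact (Finset.card_le_card hsub).trans Finset.card_le_two
    · have hsub : (S.filter fun x => φ x = φ g) ⊆ {g, -g} := by
        intro x hx
        simp only [S, Finset.mem_filter, Finset.mem_sdiff, Finset.mem_univ, true_and,
          Finset.mem_insert, Finset.mem_singleton, not_or] at hx
        obtain ⟨⟨hx0, hxh⟩, hxg⟩ := hx
        simp only [φ, if_neg hgg] at hxg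
        have hm : x ∈ sg g := by
          rw [← hxg]
          split_ifs
          · exact self_mem_kl x h0
          · exact self_mem_sg x
        rcases mem_sg hm with h | h
        · simp [h]
        · simp [h]
      exact (Finset.card_le_card hsub).trans Finset.card_le_two
  have h2 : (S.image φ).card ≤ beta G := by
    unfold beta
    rw [← Set.ncard_coe_finset]
    apply Set.ncard_le_ncard _ (betti_finite G)
    intro a ha
    obtain ⟨g, hg, rfl⟩ := Finset.mem_image.mp (Finset.mem_coe.mp ha)
    exact hφ g hg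
  have h3 : Fintype.card G ≤ S.card + 2 := by
    have h4 : (Finset.univ : Finset G).card ≤ S.card + ({0, h0} : Finset G).card := by
      have := Finset.card_le_card_sdiff_add_card (s := (Finset.univ : Finset G)) (t := {0, h0})
      simpa [S] using this
    have h5 : ({0, h0} : Finset G).card ≤ 2 := Finset.card_le_two
    rw [Finset.card_univ] at h4
    omega
  rw [Nat.card_eq_fintype_card]
  omega

section double

variable {G : Type} [AddCommGroup G]

lemma atom_eq_of_le {a b : Multiset G} (ha : IsAtomB a) (hb : IsAtomB b) (h : a ≤ b) :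
    a = b := by
  obtain ⟨t, ht⟩ := Multiset.le_iff_exists_add.mp h
  have htb : t ∈ block G := block_sub ha.1 (ht ▸ hb.1)
  rcases hb.2.2 _ ha.1 _ htb ht with h1 | h1
  · exact absurd h1 ha.2.1
  · rw [ht, h1, add_zero]

lemma atom_neg {C : Multiset G} (hC : IsAtomB C) : IsAtomB (C.map fun x => -x) :=
  (atom_map (f := (negAddMonoidHom : G →+ G)) neg_injective).mpr hC

lemma zero_notMem_atom {C : Multiset G} (hC : IsAtomB C) (h3 : 3 ≤ Multiset.card C) :
    (0 : G) ∉ C := by
  intro h0
  obtain ⟨t, ht⟩ := Multiset.exists_cons_of_mem h0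
  have h1 : ({0} : Multiset G) ∈ block G := by rw [mem_block]; simp
  have h2 : C = {0} + t := by rw [ht, Multiset.singleton_add]
  have h4 : t ∈ block G := block_sub h1 (h2 ▸ hC.1)
  rcases hC.2.2 _ h1 _ h4 h2 with h | h
  · simp at h
  · rw [h2, h] at h3
    simp at h3

/-- For every atom `C` of length at least `3`, `C·(-C)` is a Betti element. -/
lemma betti_double {C : Multiset G} (hC : IsAtomB C) (h3 : 3 ≤ Multiset.card C) :
    IsBetti (C + C.map fun x => -x) := by
  have hN := atom_neg hC
  obtain ⟨c, hc⟩ := Multiset.exists_mem_of_ne_zero hC.2.1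
  have hc0 : c ≠ 0 := by
    rintro rfl
    exact zero_notMem_atom hC h3 hc
  have hD : IsAtomB ({c, -c} : Multiset G) := by
    apply atom_of_card
    · rw [mem_block]; simp
    · simp
    · simp [hc0, hc0.symm]
    · simp
  apply betti_of_split (K := {C, C.map fun x => -x}) ((block G).add_mem hC.1 hN.1)
  refine ⟨⟨C, by simp, hC, Multiset.le_add_right _ _⟩, ⟨{c, -c}, ?_, hD, ?_⟩, ?_⟩
  · intro hmem
    rcases hmem with h | h
    · have := congrArg Multiset.card h
      simp at this
      omega
    · have := congrArg Multiset.card (Set.mem_singleton_iff.mp h)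
      simp at this
      omega
  · have h1 : ({c, -c} : Multiset G) = {c} + {-c} := rfl
    rw [h1]
    exact add_le_add (Multiset.singleton_le.mpr hc)
      (Multiset.singleton_le.mpr (Multiset.mem_map.mpr ⟨c, hc, rfl⟩))
  · rintro a b ha hb haK hbK hle
    rcases haK with h | h
    · subst h
      have h2 := atom_eq_of_le hb hN (le_of_add_le_add_left hle)
      exact hbK (Or.inr h2)
    · rw [Set.mem_singleton_iff] at h
      subst h
      rw [add_comm C] at hle
      have h2 := atom_eq_of_le hb hC (le_of_add_le_add_left hle)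
      exact hbK (Or.inl h2)

end double

section quadratic

variable {G : Type} [AddCommGroup G]

/-- The three-element zero-sum sequence `a·b·(-a-b)`. -/
def tri (a b : G) : Multiset G := {a, b, -(a + b)}

lemma atom_tri {a b : G} (ha : a ≠ 0) (hb : b ≠ 0) (hab : a + b ≠ 0) : IsAtomB (tri a b) := by
  apply atom_of_card
  · rw [mem_block, tri]
    have : a + (b + -(a + b)) = 0 := by abel
    simp [this]
  · simp [tri]
  · have h1 : (0 : G) ≠ -(a + b) := by
      intro h
      exact hab (neg_eq_zero.mp h.symm)
    simp only [tri, Multiset.insert_eq_cons, Multiset.mem_cons, Multiset.mem_singleton, not_or]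
    exact ⟨ha.symm, hb.symm, h1⟩
  · simp [tri]

open Classical in
lemma quad (G : Type) [AddCommGroup G] [Finite G] :
    (Nat.card G - 1) * (Nat.card G - 2) ≤ 36 * beta G := by
  have := Fintype.ofFinite G
  let P : Finset (Σ _ : G, G) :=
    (Finset.univ.erase 0).sigma (fun a => Finset.univ \ {0, -a})
  let ψ : (Σ _ : G, G) → Multiset G := fun x => tri x.1 x.2 + (tri x.1 x.2).map fun x => -x
  have hP : ∀ x ∈ P, x.1 ≠ 0 ∧ x.2 ≠ 0 ∧ x.1 + x.2 ≠ 0 := by
    intro x hx
    simp only [P, Finset.mem_sigma, Finset.mem_erase, Finset.mem_univ, and_true,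
      Finset.mem_sdiff, true_and, Finset.mem_insert, Finset.mem_singleton, not_or] at hx
    refine ⟨hx.1, hx.2.1, ?_⟩
    intro h
    apply hx.2.2
    exact eq_neg_of_add_eq_zero_right h
  have h1 : P.card ≤ 36 * (P.image ψ).card := by
    apply Finset.card_le_mul_card_image
    intro s hs
    obtain ⟨g, hg, rfl⟩ := Finset.mem_image.mp hs
    let T : Finset G := (ψ g).toFinset
    have hT : T.card ≤ 6 := by
      refine (Multiset.toFinset_card_le _).trans ?_
      simp [ψ, tri]
    have hsub : (P.filter fun x => ψ x = ψ g) ⊆ T.sigma (fun _ => T) := by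
      intro x hx
      simp only [Finset.mem_filter] at hx
      have h2 : x.1 ∈ ψ x := by simp [ψ, tri]
      have h3 : x.2 ∈ ψ x := by simp [ψ, tri]
      rw [hx.2] at h2 h3
      simp only [Finset.mem_sigma, T, Multiset.mem_toFinset]
      exact ⟨h2, h3⟩
    refine (Finset.card_le_card hsub).trans ?_
    rw [Finset.card_sigma, Finset.sum_const, smul_eq_mul]
    calc T.card * T.card ≤ 6 * 6 := Nat.mul_le_mul hT hT
      _ = 36 := by norm_num
  have h2 : (P.image ψ).card ≤ beta G := by
    unfold beta
    rw [← Set.ncard_coe_finset]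
    apply Set.ncard_le_ncard _ (betti_finite G)
    intro a ha
    obtain ⟨g, hg, rfl⟩ := Finset.mem_image.mp (Finset.mem_coe.mp ha)
    obtain ⟨h3, h4, h5⟩ := hP g hg
    exact betti_double (atom_tri h3 h4 h5) (by simp [tri])
  have h3 : (Fintype.card G - 1) * (Fintype.card G - 2) ≤ P.card := by
    rw [Finset.card_sigma]
    have h4 : ∀ a ∈ (Finset.univ : Finset G).erase 0,
        Fintype.card G - 2 ≤ ((Finset.univ : Finset G) \ {0, -a}).card := by
      intro a _
      have h5 := Finset.card_le_card_sdiff_add_card (s := (Finset.univ : Finset G)) (t := {0, -a})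
      have h6 : ({0, -a} : Finset G).card ≤ 2 := Finset.card_le_two
      rw [Finset.card_univ] at h5
      omega
    have h7 := Finset.card_nsmul_le_sum _ _ _ h4
    rw [Finset.card_erase_of_mem (Finset.mem_univ _), Finset.card_univ, smul_eq_mul] at h7
    exact h7
  rw [Nat.card_eq_fintype_card]
  calc _ ≤ P.card := h3
    _ ≤ 36 * (P.image ψ).card := h1
    _ ≤ 36 * beta G := Nat.mul_le_mul_left _ h2

lemma beta_one (G : Type) [AddCommGroup G] [Finite G] (h2 : 2 < Nat.card G)
    (hb : beta G = 1) : Nat.card G = 3 ∨ (Nat.card G = 4 ∧ ∀ g : G, g + g = 0) := by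
  have h4 := card_le G
  rw [hb] at h4
  by_cases h3 : Nat.card G = 3
  · left; exact h3
  have hc : Nat.card G = 4 := by omega
  right
  refine ⟨hc, ?_⟩
  by_contra hcon
  push Not at hcon
  obtain ⟨g, hg⟩ := hcon
  have hgn : g ≠ -g := by
    intro h
    apply hg
    nth_rewrite 2 [h]
    exact add_neg_cancel g
  have hg0 : g ≠ 0 := by
    rintro rfl
    simp at hg
  have hB1 := betti_sg hgn
  have hB2 := betti_double (atom_tri hg0 hg0 hg) (by simp [tri])
  unfold beta at hb
  obtain ⟨a, ha⟩ := Set.ncard_eq_one.mp hb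
  have e1 : sg g = a := by
    have : sg g ∈ {s : Multiset G | IsBetti s} := hB1
    rw [ha] at this
    exact this
  have e2 : (tri g g + (tri g g).map fun x => -x) = a := by
    have : (tri g g + (tri g g).map fun x => -x) ∈ {s : Multiset G | IsBetti s} := hB2
    rw [ha] at this
    exact this
  have e3 := congrArg Multiset.card (e1.trans e2.symm)
  simp [sg, tri] at e3
  have hd : addOrderOf g ∣ Nat.card G := addOrderOf_dvd_natCard g
  have ho : addOrderOf g = 3 := by omega
  rw [hc, ho] at hd
  omega

end quadratic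

/-- (1) Every `B(G)`, `G` finite abelian, has finitely many Betti elements, and no Betti element is
divisible by `g^(2 ord g)` for any `g`.
(2) If `f : H → G` is an injective, non-surjective homomorphism of abelian groups, `G` finite and
`|G| > 2`, then `β(H) < β(G)`.
(3) For every atom `C` of length at least `3`, the element `C·(-C)` is a Betti element.
(4) `|G| ≤ 2 β(G) + 2` and `(|G|-1)(|G|-2) ≤ 36 β(G)` for every finite abelian group `G`.
(5) If `|G| > 2` and `β(G) = 1`, then `|G| = 3`, or `|G| = 4` and `2g = 0` for all `g`. -/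
theorem result :
    (∀ (G : Type) [AddCommGroup G] [Finite G], {s : Multiset G | IsBetti s}.Finite ∧
      ∀ s : Multiset G, IsBetti s → ∀ g : G, ¬ (Multiset.replicate (2 * addOrderOf g) g ≤ s)) ∧
    (∀ (G H : Type) [AddCommGroup G] [Finite G] [AddCommGroup H] (f : H →+ G),
      Function.Injective f → ¬ Function.Surjective f → 2 < Nat.card G → beta H < beta G) ∧
    (∀ (G : Type) [AddCommGroup G] (C : Multiset G), IsAtomB C → 3 ≤ Multiset.card C →
      IsBetti (C + C.map fun x => -x)) ∧
    (∀ (G : Type) [AddCommGroup G] [Finite G], Nat.card G ≤ 2 * beta G + 2 ∧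
      (Nat.card G - 1) * (Nat.card G - 2) ≤ 36 * beta G) ∧
    (∀ (G : Type) [AddCommGroup G] [Finite G], 2 < Nat.card G → beta G = 1 →
      Nat.card G = 3 ∨ (Nat.card G = 4 ∧ ∀ g : G, g + g = 0)) :=
  ⟨fun G _ _ => ⟨betti_finite G, fun s hs g => betti_not_replicate hs g⟩,
    fun _ _ _ _ _ f hf hs hc => beta_lt f hf hs hc,
    fun _ _ _ hC h3 => betti_double hC h3, fun G _ _ => ⟨card_le G, quad G⟩,
    fun G _ _ h2 hb => beta_one G h2 hb⟩

end Pool.Agent.Results.MP_baecf2_al.SubgroupMono
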